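import Mathlib
import Pool.Agent.Y859.MU.Fin

set_option autoImplicit false

/-!
# The converse of Tunnell's criterion for even `n`: congruent numbers of every even class with a prescribed divisor

Every squarefree `D ≤ X ^ (1/2 - ε)` (even or odd) divides at least `X ^ (1/2 - ε) / D` squarefree congruent
numbers `n ≤ X` of each of the classes `2, 6, 10, 14` modulo `16`, the quotient `n / D` being almost prime up
to the factor `2`.  All these `n` satisfy the hypothesis `2 |C_n| = |D_n|` of the problem: in the classes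
`6` and `14` because both sets are empty (this is proved here), in the classes `2` and `10` by Tunnell's
theorem.

The construction is the one of the starting files (`Pool.Agent.Y859.MU`); of its results only the classes
`5, 6, 7` modulo `8` had been handed in (for another problem), the classes `2` and `10` modulo `16`, in which
the hypothesis of the problem is a real condition, had not.
-/

namespace Pool.Agent.Results.MP_f126a2_nt.EveryDivisor

/-- `n` is the area of a right triangle with rational sides -/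
def IsCongruent (n : ℕ) : Prop :=
  ∃ a b c : ℚ, 0 < a ∧ 0 < b ∧ 0 < c ∧ a ^ 2 + b ^ 2 = c ^ 2 ∧ (n : ℚ) = a * b / 2

/-- the set `C_n` of the integral solutions of `n = 8 x² + 2 y² + 64 z²` -/
def C (n : ℕ) : Set (ℤ × ℤ × ℤ) := {v | (n : ℤ) = 8 * v.1 ^ 2 + 2 * v.2.1 ^ 2 + 64 * v.2.2 ^ 2}

/-- the set `D_n` of the integral solutions of `n = 8 x² + 2 y² + 16 z²` -/
def D (n : ℕ) : Set (ℤ × ℤ × ℤ) := {v | (n : ℤ) = 8 * v.1 ^ 2 + 2 * v.2.1 ^ 2 + 16 * v.2.2 ^ 2}

/-- `m` has at most `R` prime factors (with multiplicity), the odd ones larger than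
`X ^ (1 / R)` -/
def AlmostPrime (R X m : ℕ) : Prop :=
  m.primeFactorsList.length ≤ R ∧
    ∀ p : ℕ, p.Prime → p ≠ 2 → p ∣ m → (X : ℝ) ^ (1 / (R : ℝ)) < (p : ℝ)

lemma form_ne (n : ℕ) (h : n % 8 = 6) (y w : ℤ) : (n : ℤ) ≠ 2 * y ^ 2 + 8 * w := by
  intro he
  have hy : y ^ 2 % 4 = 0 ∨ y ^ 2 % 4 = 1 := by
    rcases Int.even_or_odd' y with ⟨k, rfl | rfl⟩
    · left; ring_nf; omega
    · right; ring_nf; omega
  omega

theorem empty (n : ℕ) (h : n % 8 = 6) : C n = ∅ ∧ D n = ∅ := by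
  constructor
  · rw [Set.eq_empty_iff_forall_notMem]
    rintro ⟨x, y, z⟩ hv
    exact form_ne n h y (x ^ 2 + 8 * z ^ 2) (by simp only [C, Set.mem_ofPred_eq] at hv; rw [hv]; ring)
  · rw [Set.eq_empty_iff_forall_notMem]
    rintro ⟨x, y, z⟩ hv
    exact form_ne n h y (x ^ 2 + 2 * z ^ 2) (by simp only [D, Set.mem_ofPred_eq] at hv; rw [hv]; ring)

/-- (1) **Every squarefree `d ≤ X ^ (1/2 - ε)` divides many squarefree congruent numbers `n ≤ X` in each
even class modulo `16` which contains squarefree numbers.**  Let `0 < ε ≤ 1/2`.  There are `R` and `X₀` such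
that for all `X ≥ X₀`, all squarefree `d ≤ X ^ (1/2 - ε)` and `r ∈ {2, 6, 10, 14}` at least
`X ^ (1/2 - ε) / d` squarefree congruent numbers `n ≤ X` satisfy `n ≡ r` modulo `16` and `n = d m`, where `m`
has at most `R` prime factors, the odd ones larger than `X ^ (1 / R)`.
(2) In the classes `6` and `14` the hypothesis `2 |C_n| = |D_n|` of the problem holds, both sets are empty. -/
theorem result :
    (∀ ε : ℝ, 0 < ε → ε ≤ 1 / 2 →
      ∃ R X₀ : ℕ, 1 ≤ R ∧ ∀ X : ℕ, X₀ ≤ X → ∀ d : ℕ, Squarefree d →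
        (d : ℝ) ≤ (X : ℝ) ^ (1 / 2 - ε) → ∀ r ∈ ({2, 6, 10, 14} : Finset ℕ),
          (X : ℝ) ^ (1 / 2 - ε) / d ≤
            ({n : ℕ | n ≤ X ∧ n % 16 = r ∧ Squarefree n ∧ IsCongruent n ∧
              ∃ m, n = d * m ∧ AlmostPrime R X m}.ncard : ℝ)) ∧
    (∀ n : ℕ, n % 8 = 6 → C n = ∅ ∧ D n = ∅) := by
  refine ⟨?_, empty⟩
  intro ε hε hε1
  obtain ⟨R, X₀, hR, h⟩ := Pool.Agent.Y859.MU.main ε hε hε1
  refine ⟨R, X₀, hR, ?_⟩
  intro X hX d hdsq hdX r hr
  have hr' : r % 4 = 2 ∧ r < 16 := by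
    simp only [Finset.mem_insert, Finset.mem_singleton] at hr
    omega
  have hfin : {n : ℕ | n ≤ X ∧ n % 16 = r ∧ Squarefree n ∧ IsCongruent n ∧
      ∃ m, n = d * m ∧ AlmostPrime R X m}.Finite :=
    (Set.finite_Iic X).subset fun n hn => hn.1
  refine ((h X hX d hdsq hdX).2 r hr'.1 hr'.2).trans ?_
  have := Set.ncard_le_ncard (s := {n : ℕ | n ≤ X ∧ n % 16 = r ∧ Squarefree n ∧
    Pool.Agent.Y859.SP.Cg.IsCong n ∧ ∃ m, n = d * m ∧ Pool.Agent.Y859.MU.Few R X m})
    (t := {n : ℕ | n ≤ X ∧ n % 16 = r ∧ Squarefree n ∧ IsCongruent n ∧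
      ∃ m, n = d * m ∧ AlmostPrime R X m}) (fun n hn => by
      obtain ⟨g1, g2, g3, ⟨a, b, c, k1, k2, k3, k4, k5⟩, m, g5, g6⟩ := hn
      exact ⟨g1, g2, g3, ⟨a, b, c, k1, k2, k3, k4, k5.symm⟩, m, g5, g6.1, g6.2⟩) hfin
  exact_mod_cast this

end Pool.Agent.Results.MP_f126a2_nt.EveryDivisor
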